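import Mathlib
import Pool.Agent.ZES.StmtsL

set_option autoImplicit false

/-! Row GSM of the squad ZES: Gaussian sums over discrete groups. -/

namespace Pool.Agent.ZES.H95

open Pool.Agent.ZES

theorem exp_bound (c t : ℝ) (hc : 0 < c) (ht : 0 < t) (n : ℕ) :
    Real.exp (-(c * t ^ 2)) ≤ (n.factorial : ℝ) / c ^ n * t⁻¹ ^ (2 * n) := by
  have h1 := Real.pow_div_factorial_le_exp (c * t ^ 2) (by positivity) n
  have hf : (0 : ℝ) < (n.factorial : ℝ) := by exact_mod_cast Nat.factorial_pos n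
  have hp : 0 < (c * t ^ 2) ^ n := by positivity
  rw [Real.exp_neg, inv_le_comm₀ (Real.exp_pos _) (by positivity)]
  refine le_trans (le_of_eq ?_) h1
  rw [mul_inv, inv_div, inv_pow, inv_inv, mul_pow, ← pow_mul]
  ring

theorem gsm : GsmStmt := by
  classical
  intro E _ _ _ L hL c hc
  set L' : Submodule ℤ E := AddSubgroup.toIntSubmodule L with hL'
  have hdisc : DiscreteTopology L' := hL
  set n : ℕ := Module.finrank ℤ L' + 1 with hn
  have h1 : Summable fun z : L' => ‖z‖⁻¹ ^ (2 * n) :=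
    ZLattice.summable_norm_pow_inv L' (2 * n) (by omega)
  have h2 : Summable fun z : L => ‖(z : E)‖⁻¹ ^ (2 * n) := by
    have h3 := h1.comp_injective (i := fun z : L => (⟨z.1, z.2⟩ : L'))
      (fun a b h => Subtype.ext (congrArg Subtype.val h))
    exact h3
  have h4 : Summable fun z : L => (if z = 0 then (1 : ℝ) else 0) :=
    (hasSum_ite_eq (0 : L) (1 : ℝ)).summable
  have h5 := (h2.mul_left ((n.factorial : ℝ) / c ^ n)).add h4
  refine Summable.of_nonneg_of_le (fun z => (Real.exp_pos _).le) (fun z => ?_) h5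
  by_cases hz : z = 0
  · rw [if_pos hz, hz]
    have h6 : (0 : ℝ) ≤ (n.factorial : ℝ) / c ^ n * ‖((0 : L) : E)‖⁻¹ ^ (2 * n) := by positivity
    have h7 : Real.exp (-(c * ‖((0 : L) : E)‖ ^ 2)) ≤ 1 := by
      apply Real.exp_le_one_iff.2
      have : 0 ≤ c * ‖((0 : L) : E)‖ ^ 2 := by positivity
      linarith
    linarith
  · rw [if_neg hz, add_zero]
    apply exp_bound c _ hc
    rw [norm_pos_iff]
    intro h0
    exact hz (Subtype.ext h0)

end Pool.Agent.ZES.H95
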